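import Pool.Agent.W42.RG.Defs

/-!
The ideal generated by the contracted and the expanded vectors is contained in the subalgebra
generated by them.
-/

set_option autoImplicit false
set_option linter.unusedSectionVars false

namespace Pool.Agent.W381.LX

open Filter Topology Pool.Agent.W42.RG

section
variable {𝔤 : Type} [LieRing 𝔤] [LieAlgebra ℝ 𝔤] [FiniteDimensional ℝ 𝔤]
  [TopologicalSpace 𝔤] [IsTopologicalAddGroup 𝔤] [ContinuousSMul ℝ 𝔤] [T2Space 𝔤]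

theorem cont_bracket : Continuous fun p : 𝔤 × 𝔤 => ⁅p.1, p.2⁆ := by
  have h : IsModuleTopology ℝ 𝔤 := isModuleTopologyOfFiniteDimensional
  exact IsModuleTopology.continuous_bilinear_of_finite_left (R := ℝ)
    (LieModule.toEnd ℝ 𝔤 𝔤 : 𝔤 →ₗ[ℝ] 𝔤 →ₗ[ℝ] 𝔤)

theorem iter_lie {f : 𝔤 → 𝔤} (hf : ∀ Y Z, f ⁅Y, Z⁆ = ⁅f Y, f Z⁆) (n : ℕ) (Y Z : 𝔤) :
    f^[n] ⁅Y, Z⁆ = ⁅f^[n] Y, f^[n] Z⁆ := by
  induction n with
  | zero => rfl
  | succ n ih => rw [Function.iterate_succ_apply', Function.iterate_succ_apply',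
      Function.iterate_succ_apply', ih, hf]

theorem poly_geom (d : ℕ) {ρ : ℝ} (h0 : 0 < ρ) (h1 : ρ < 1) :
    Tendsto (fun n : ℕ => ((n : ℝ) + 1) ^ d * ρ ^ n) atTop (𝓝 0) := by
  have h2 : Tendsto (fun n : ℕ => (n : ℝ) ^ d * ρ ^ n) atTop (𝓝 0) :=
    tendsto_pow_const_mul_const_pow_of_abs_lt_one d (by rw [abs_of_pos h0]; exact h1)
  have h3 := ((tendsto_add_atTop_iff_nat 1).mpr h2).mul_const ρ⁻¹
  rw [zero_mul] at h3
  refine h3.congr fun n => ?_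
  push_cast
  rw [pow_succ]
  field_simp

theorem ctr_lie {f : 𝔤 → 𝔤} (hf : ∀ Y Z, f ⁅Y, Z⁆ = ⁅f Y, f Z⁆) {Y Z : 𝔤} {d : ℕ}
    (hY : Tendsto (fun n : ℕ => (((n : ℝ) + 1) ^ d)⁻¹ • f^[n] Y) atTop (𝓝 0))
    (hZ : Z ∈ ctr f) : ⁅Y, Z⁆ ∈ ctr f := by
  obtain ⟨r, hr, hr0⟩ := hZ
  refine ⟨(1 + r) / 2, by linarith, ?_⟩
  have hρ : Tendsto (fun n : ℕ => ((n : ℝ) + 1) ^ d * (((1 + r) / 2) / r) ^ n) atTop (𝓝 0) :=
    poly_geom d (by positivity) (by rw [div_lt_one (by linarith)]; linarith)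
  have hbr : Tendsto (fun n : ℕ => ⁅(((n : ℝ) + 1) ^ d)⁻¹ • f^[n] Y, r ^ n • f^[n] Z⁆) atTop
      (𝓝 ⁅(0 : 𝔤), (0 : 𝔤)⁆) :=
    (cont_bracket.tendsto ((0 : 𝔤), (0 : 𝔤))).comp (hY.prodMk_nhds hr0)
  have h := hρ.smul hbr
  rw [zero_smul] at h
  refine h.congr fun n => ?_
  have hr' : r ≠ 0 := by linarith
  have hn : ((n : ℝ) + 1) ^ d ≠ 0 := by positivity
  rw [iter_lie hf, smul_lie, lie_smul, smul_smul, smul_smul]
  congr 1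
  rw [div_pow]
  field_simp

end

theorem t_IDE (h : S_LA) : S_IDE := by
  intro 𝔤 _ _ _ _ _ _ _ A hA H hH
  have hAs : ∀ Y Z : 𝔤, A.symm ⁅Y, Z⁆ = ⁅A.symm Y, A.symm Z⁆ := by
    intro Y Z
    apply A.injective
    rw [hA, A.apply_symm_apply, A.apply_symm_apply, A.apply_symm_apply]
  let C : Set 𝔤 := ctr A ∪ ctr A.symm
  let H0 : LieSubalgebra ℝ 𝔤 := LieSubalgebra.lieSpan ℝ 𝔤 C
  have hC : C ⊆ H0 := LieSubalgebra.subset_lieSpan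
  have hH0 : H0 ≤ H := LieSubalgebra.lieSpan_le.mpr fun Y hY => hH Y hY
  have hid : ∀ Y Z : 𝔤, Z ∈ H0 → ⁅Y, Z⁆ ∈ H0 := by
    intro Y Z hZ
    obtain ⟨Y₁, Y₂, Y₃, rfl, h1, h3, d, h2, h2'⟩ := h 𝔤 A Y
    have hY1 : Y₁ ∈ H0 := hC (Or.inr h1)
    have hY3 : Y₃ ∈ H0 := hC (Or.inl h3)
    let D : LieSubalgebra ℝ 𝔤 :=
      { carrier := {W | W ∈ H0 ∧ ⁅Y₂, W⁆ ∈ H0}
        add_mem' := fun {a b} ha hb => ⟨H0.add_mem ha.1 hb.1, by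
          rw [lie_add]; exact H0.add_mem ha.2 hb.2⟩
        zero_mem' := ⟨H0.zero_mem, by rw [lie_zero]; exact H0.zero_mem⟩
        smul_mem' := fun c a ha => ⟨H0.smul_mem c ha.1, by
          rw [lie_smul]; exact H0.smul_mem c ha.2⟩
        lie_mem' := fun {a b} ha hb => ⟨H0.lie_mem ha.1 hb.1, by
          rw [leibniz_lie]
          exact H0.add_mem (H0.lie_mem ha.2 hb.1) (H0.lie_mem ha.1 hb.2)⟩ }
    have hD : H0 ≤ D := by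
      refine LieSubalgebra.lieSpan_le.mpr fun W hW => ?_
      refine ⟨hC hW, hC ?_⟩
      rcases hW with hW | hW
      · exact Or.inl (ctr_lie hA h2 hW)
      · exact Or.inr (ctr_lie hAs h2' hW)
    rw [add_lie, add_lie]
    exact H0.add_mem (H0.add_mem (H0.lie_mem hY1 hZ) (hD hZ).2) (H0.lie_mem hY3 hZ)
  let I : LieIdeal ℝ 𝔤 :=
    { H0.toSubmodule with
      lie_mem := fun {x m} hm => hid x m hm }
  have hI : (LieSubmodule.lieSpan ℝ 𝔤 C : LieIdeal ℝ 𝔤) ≤ I :=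
    LieSubmodule.lieSpan_le.mpr fun Y hY => hC hY
  intro Z hZ
  exact hH0 (hI hZ)

end Pool.Agent.W381.LX
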